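import Pool.Agent.Y498.HS.Top

/-! # Solutions with different limits are not congruent -/

set_option autoImplicit false

open MeasureTheory Set Filter Topology Metric
open scoped ENNReal NNReal ContDiff Laplacian

namespace Pool.Agent.Y498.HS

variable {m : ℕ}

lemma noncong {u u' : En m → ℝ} {B B' l l' : ℝ} (hl : 0 < l) (hl' : 0 < l')
    (h : ∀ X, |u X + B| ≤ 3 / 2 * Real.exp (l * X 0))
    (h' : ∀ X, |u' X + B'| ≤ 3 / 2 * Real.exp (l' * X 0))
    (hlow : ∀ X : En m, Real.cos (l' * X 1) = 1 → -B' + 1 / 2 * Real.exp (l' * X 0) ≤ u' X)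
    (g : En m ≃ᵃⁱ[ℝ] En m) (hg : ∀ x, u x = u' (g x)) : B = B' := by
  set L := g.linearIsometryEquiv with hL
  set e0 : En m := EuclideanSpace.single 0 1 with he0
  have e00 : e0 0 = 1 := by simp [he0]
  have hgv : ∀ (x : En m) (t : ℝ), g (x - t • e0) = g x + t • L (-e0) := by
    intro x t
    have h1 := g.map_vadd x (-(t • e0))
    simp only [vadd_eq_add] at h1
    have h2 : x - t • e0 = -(t • e0) + x := by abel
    rw [h2, h1, ← hL, map_neg, map_neg, map_smul, smul_neg, add_comm]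
  set d : En m := L (-e0) with hd
  -- decay of an exponential
  have hexp : ∀ (c a b : ℝ), 0 < c → b < 0 →
      Tendsto (fun t : ℝ => 3 / 2 * Real.exp (c * (a + t * b))) atTop (𝓝 0) := by
    intro c a b hc hb
    have h1 : Tendsto (fun t : ℝ => c * (a + t * b)) atTop atBot := by
      refine Tendsto.const_mul_atBot hc ?_
      exact tendsto_atBot_add_const_left _ _ (tendsto_id.atTop_mul_const_of_neg hb)
    have h2 := (Real.tendsto_exp_atBot.comp h1).const_mul (3 / 2)
    simpa [Function.comp_def] using h2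
  have hlim : ∀ x : En m, Tendsto (fun t : ℝ => u' (g x + t • d)) atTop (𝓝 (-B)) := by
    intro x
    have h1 : ∀ t : ℝ, |u' (g x + t • d) - (-B)| ≤ 3 / 2 * Real.exp (l * (x 0 + t * (-1))) := by
      intro t
      rw [sub_neg_eq_add, ← hgv, ← hg]
      have h2 := h (x - t • e0)
      have h3 : (x - t • e0) 0 = x 0 + t * (-1) := by
        simp [e00]
        ring
      rwa [h3] at h2
    exact tendsto_iff_norm_sub_tendsto_zero.2
      (squeeze_zero (fun t => norm_nonneg _) h1 (hexp l (x 0) (-1) hl (by norm_num)))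
  rcases lt_or_ge (d 0) 0 with hd0 | hd0
  · have h1 : Tendsto (fun t : ℝ => u' (g 0 + t • d)) atTop (𝓝 (-B')) := by
      have h2 : ∀ t : ℝ, |u' (g 0 + t • d) - (-B')| ≤
          3 / 2 * Real.exp (l' * ((g 0) 0 + t * d 0)) := by
        intro t
        rw [sub_neg_eq_add]
        have h3 := h' (g 0 + t • d)
        simpa using h3
      exact tendsto_iff_norm_sub_tendsto_zero.2
        (squeeze_zero (fun t => norm_nonneg _) h2 (hexp l' ((g 0) 0) (d 0) hl' hd0))
    have h2 := tendsto_nhds_unique (hlim 0) h1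
    linarith
  · exfalso
    set K : ℝ := Real.log (2 * (|B' - B| + 1)) / l' with hK
    have hpos : 0 < 2 * (|B' - B| + 1) := by positivity
    have hKe : Real.exp (l' * K) = 2 * (|B' - B| + 1) := by
      rw [hK, mul_div_cancel₀ _ hl'.ne', Real.exp_log hpos]
    set X : En m := K • e0 with hX
    have hX0 : X 0 = K := by simp [hX, e00]
    have hX1 : X 1 = 0 := by simp [hX, he0]
    obtain ⟨a, ha, hcos⟩ : ∃ a : ℝ, 0 < a ∧ ∀ k : ℕ, Real.cos (l' * (a * k * d 1)) = 1 := by
      rcases lt_trichotomy (d 1) 0 with h1 | h1 | h1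
      · refine ⟨2 * Real.pi / (l' * (-(d 1))), by
          have := mul_pos hl' (neg_pos.2 h1)
          positivity, fun k => ?_⟩
        rw [Real.cos_eq_one_iff]
        refine ⟨-(k : ℤ), ?_⟩
        have h2 : d 1 ≠ 0 := h1.ne
        push_cast
        field_simp
      · exact ⟨1, one_pos, fun k => by rw [h1]; simp⟩
      · refine ⟨2 * Real.pi / (l' * d 1), by positivity, fun k => ?_⟩
        rw [Real.cos_eq_one_iff]
        refine ⟨(k : ℤ), ?_⟩
        have h2 : d 1 ≠ 0 := h1.ne'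
        push_cast
        field_simp
    have hseq : Tendsto (fun k : ℕ => a * (k : ℝ)) atTop atTop :=
      Tendsto.const_mul_atTop ha tendsto_natCast_atTop_atTop
    have hl1 := (hlim (g.symm X)).comp hseq
    have hev : ∀ᶠ k : ℕ in atTop, u' (g (g.symm X) + (a * (k : ℝ)) • d) < -B + 1 := by
      have := hl1.eventually_lt_const (show -B < -B + 1 by linarith)
      simpa [Function.comp_def] using this
    obtain ⟨k, hk⟩ := hev.exists
    rw [AffineIsometryEquiv.apply_symm_apply] at hk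
    have h3 := hlow (X + (a * (k : ℝ)) • d) (by
      have e : (X + (a * (k : ℝ)) • d) 1 = a * k * d 1 := by
        simp [hX1]
      rw [e]
      exact hcos k)
    have e : (X + (a * (k : ℝ)) • d) 0 = K + a * k * d 0 := by
      simp [hX0]
    rw [e] at h3
    have h4 : Real.exp (l' * K) ≤ Real.exp (l' * (K + a * k * d 0)) := by
      apply Real.exp_le_exp.2
      have : 0 ≤ a * (k : ℝ) * d 0 := by positivity
      nlinarith
    rw [hKe] at h4
    have h5 := neg_abs_le (B' - B)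
    have h6 := le_abs_self (B' - B)
    linarith

/-- The main theorem: a one-parameter family of pairwise non-congruent solutions. -/
theorem main4 (m : ℕ) (f : ℝ → ℝ) (hf : ContDiff ℝ ∞ f) (hs : HasCompactSupport f) :
    ∃ (B0 : ℝ) (u : ℝ → En m → ℝ) (l : ℝ → ℝ), (∀ B, B0 ≤ B → 0 < l B ∧ ContDiff ℝ ∞ (u B) ∧
      (∀ X, (Δ (u B)) X = f (u B X)) ∧ (∀ X, fderiv ℝ (u B) X ≠ 0) ∧
      (∀ X, 0 < u B X → 0 < X 0) ∧ (∃ X, 0 < u B X) ∧ ¬ OneDim (u B) ∧
      (∀ X, |u B X + B| ≤ 3 / 2 * Real.exp (l B * X 0)) ∧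
      (∀ X Y : En m, X 0 = Y 0 → X 1 = Y 1 → u B X = u B Y) ∧
      ∀ X : En m, u B (X + (2 * Real.pi / l B) • EuclideanSpace.single 1 1) = u B X) ∧
      ∀ B B', B0 ≤ B → B0 ≤ B' → B ≠ B' → ¬ ∃ g : En m ≃ᵃⁱ[ℝ] En m, ∀ X, u B X = u B' (g X) := by
  obtain ⟨B0, h⟩ := main3 m f hf hs
  choose! u l h using h
  refine ⟨B0, u, l, fun B hB => ?_, ?_⟩
  · obtain ⟨h1, h2, h3, h4, h5, h6, h7, h8, h9, h10, _⟩ := h B hB
    exact ⟨h1, h2, h3, h4, h5, h6, h7, h8, h9, h10⟩
  · rintro B B' hB hB' hne ⟨g, hg⟩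
    obtain ⟨h1, _, _, _, _, _, _, h8, _, _, _⟩ := h B hB
    obtain ⟨h1', _, _, _, _, _, _, h8', _, _, h11'⟩ := h B' hB'
    exact hne (noncong h1 h1' h8 h8' h11' g hg)

end Pool.Agent.Y498.HS
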